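import Pool.Agent.Helper95.PolyFin

set_option autoImplicit false

/-!
# The two critical values of the self-interacting walk coincide in all dimensions `d ≥ 2`

Full answer to Q1 of MP_a146e8_pr, stated with walks as sequences of points of `ℤ^d`.
-/

open Filter

namespace Pool.Agent.Results.MP_a146e8_pr.ThresholdsCoincide

/-- The nearest-neighbour walks `w = (w_0, ..., w_n)` in `ℤ^d` started at `w_0 = 0`: every step has
Euclidean length `1`. -/
def Walks (d n : ℕ) : Set (Fin (n + 1) → Fin d → ℤ) :=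
  {w | w 0 = 0 ∧ ∀ i : Fin n, ∑ k, (w i.succ k - w i.castSucc k) ^ 2 = 1}

/-- Expectation under the uniform probability on the walks with `n` steps. -/
noncomputable def E (d n : ℕ) (f : (Fin (n + 1) → Fin d → ℤ) → ℝ) : ℝ :=
  (∑ᶠ w ∈ Walks d n, f w) / (Walks d n).ncard

/-- The intersection local time: the number of pairs `i < j` with `w_i = w_j`. -/
noncomputable def I {d n : ℕ} (w : Fin (n + 1) → Fin d → ℤ) : ℝ :=
  ({p : Fin (n + 1) × Fin (n + 1) | p.1 < p.2 ∧ w p.1 = w p.2}.ncard : ℝ)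

/-- `Z_n = E[exp (-(β / n) I_n)]`. -/
noncomputable def Z (d : ℕ) (β : ℝ) (n : ℕ) : ℝ := E d n fun w => Real.exp (-(β / n) * I w)

/-- `Z_n^* = E[exp (-(β / n) (I_n - E I_n))]`. -/
noncomputable def ZStar (d : ℕ) (β : ℝ) (n : ℕ) : ℝ :=
  E d n fun w => Real.exp (-(β / n) * (I w - E d n I))

/-- The `β` with `limsup Z_n^(1/n) > 1` (the upper limit is taken in the extended real numbers). -/
def Growth (d : ℕ) : Set ℝ :=
  {β | 1 < limsup (fun n : ℕ => ((Z d β n ^ (1 / (n : ℝ)) : ℝ) : EReal)) atTop}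

/-- The `β` with `sup_{n ≥ 1} Z_n^* < ∞`. -/
def Bounded (d : ℕ) : Set ℝ := {β | BddAbove {z | ∃ n : ℕ, 1 ≤ n ∧ z = ZStar d β n}}

open Pool.Agent.Helper95.Poly

section general
variable {Γ : Type*} [AddCommGroup Γ] [DecidableEq Γ] {ι : Type*} [Fintype ι] [Nonempty ι]

private lemma lower (σ : ι → Γ) {β β' : ℝ} (h : β' ∈ SA σ) (hb : β ≤ β') : β ∈ SA σ := by
  obtain ⟨c, hc, hf⟩ := h
  refine ⟨c, hc, hf.mono fun n hn => hn.trans_le ?_⟩
  refine Real.rpow_le_rpow (ZZ_pos σ n β').le ?_ (by positivity)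
  unfold ZZ
  refine EE_mono σ fun L x _ => Real.exp_le_exp.2 ?_
  have h0 := psum_nonneg (κ := dl) dl_nonneg (x :: L)
  have h1 : β / n ≤ β' / n := by gcongr
  nlinarith

private lemma gen (σ : ι → Γ) (hA : Mean0 σ) (hB : Bdd σ) (hne : (SA σ).Nonempty) :
    ∃ b : ℝ, b ≤ 0 ∧ IsLUB (SA σ) b ∧ IsGLB (SB σ) b ∧ (∀ β < b, β ∈ SA σ ∧ β ∉ SB σ) ∧
      ∀ β, b < β → β ≤ 0 → β ∉ SA σ ∧ β ∈ SB σ := by
  have hbA : BddAbove (SA σ) := ⟨0, fun β hβ => (SA_neg σ hβ).le⟩
  obtain ⟨β0, hβ0⟩ := hne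
  have hbB : BddBelow (SB σ) := ⟨β0, fun β hβ => SB_le σ hA hβ hβ0⟩
  have h1 : IsLUB (SA σ) (sSup (SA σ)) := isLUB_csSup ⟨β0, hβ0⟩ hbA
  have h2 : IsGLB (SB σ) (sSup (SA σ)) := by
    rw [thresholds_eq σ hA hB ⟨β0, hβ0⟩]
    exact isGLB_csInf ⟨0, zero_mem_SB σ⟩ hbB
  refine ⟨sSup (SA σ), csSup_le ⟨β0, hβ0⟩ fun β hβ => (SA_neg σ hβ).le, h1, h2,
    fun β hβ => ⟨?_, fun h3 => ?_⟩, fun β hβ h0 => ⟨fun h3 => ?_, ?_⟩⟩
  · obtain ⟨β', h3, h4⟩ := exists_lt_of_lt_csSup ⟨β0, hβ0⟩ hβ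
    exact lower σ h3 h4.le
  · exact absurd (h2.1 h3) (not_le.2 hβ)
  · exact absurd (h1.1 h3) (not_le.2 hβ)
  · rcases eq_or_lt_of_le h0 with h4 | h4
    · rw [h4]
      exact zero_mem_SB σ
    · obtain ⟨β'', h5, h6⟩ := exists_between hβ
      exact mem_SB_of_gt σ hB (fun h7 => absurd (h1.1 h7) (not_le.2 h5)) h6 h4

end general

private lemma all {d : ℕ} (hd : 2 ≤ d) [Nonempty (Fin d × Bool)] :
    ∃ b : ℝ, b ≤ 0 ∧ IsLUB (SA (sd d)) b ∧ IsGLB (SB (sd d)) b ∧
      (∀ β < b, β ∈ SA (sd d) ∧ β ∉ SB (sd d)) ∧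
      ∀ β, b < β → β ≤ 0 → β ∉ SA (sd d) ∧ β ∈ SB (sd d) := by
  rcases Nat.lt_or_ge d 3 with h | h
  · have h2 : d = 2 := by omega
    subst h2
    rw [← SA_hom rot rot_inj rot_step, ← SB_hom rot rot_inj rot_step]
    refine gen (dg ℤ) (mean0 (dg ℤ) ?_) (fun γ lam hS h0 h => two_dim hS h0 h)
      (SA_nonempty (dg ℤ) dgν dg_neg)
    refine squeeze_zero (fun m => Pop_iter_nonneg (dg ℤ) dl_nonneg m 0) (fun m => ?_)
      tendsto_one_div_add_atTop_nhds_zero_nat
    rw [← pk_iter]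
    exact pk_le m 0
  · have : NeZero d := ⟨by omega⟩
    obtain ⟨π, hs, hπ⟩ := high_kernel h
    refine gen (sd d) (mean0 (sd d) ?_) (bdd_high (sd d) hπ hs)
      (SA_nonempty (sd d) (sdν d) (sd_neg d))
    exact squeeze_zero (fun m => Pop_iter_nonneg (sd d) dl_nonneg m 0) (fun m => hπ m 0)
      hs.tendsto_atTop_zero

/-- the walk with the steps `s` -/
private def walk {d n : ℕ} (s : Fin n → Fin d × Bool) : Fin (n + 1) → Fin d → ℤ :=
  fun i => wpos (sd d) s i.val

private lemma walk_succ {d n : ℕ} (s : Fin n → Fin d × Bool) (i : Fin n) :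
    walk s i.succ = walk s i.castSucc + sd d (s i) := by
  unfold walk wpos
  rw [Fin.val_succ, Fin.val_castSucc, ← Finset.sum_erase_add _ _ (Finset.mem_univ i),
    ← Finset.sum_erase_add (a := i) (s := Finset.univ)
      (f := fun j : Fin n => if j.val < i.val then sd d (s j) else 0) (Finset.mem_univ i),
    if_pos (Nat.lt_succ_self _), if_neg (lt_irrefl _), add_zero]
  congr 1
  refine Finset.sum_congr rfl fun j hj => ?_
  have h1 : j.val ≠ i.val := fun h => (Finset.mem_erase.1 hj).1 (Fin.ext h)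
  by_cases h2 : j.val < i.val
  · rw [if_pos h2, if_pos (by omega)]
  · rw [if_neg h2, if_neg (by omega)]

private lemma sd_sq (d : ℕ) (e : Fin d × Bool) : ∑ k, (sd d e k) ^ 2 = 1 := by
  rw [Finset.sum_eq_single e.1]
  · rw [sd, Pi.single_eq_same]
    split_ifs <;> norm_num
  · intro k _ hk
    rw [sd, Pi.single_eq_of_ne hk]
    norm_num
  · intro h
    exact absurd (Finset.mem_univ _) h

private lemma sd_inj (d : ℕ) : Function.Injective (sd d) := by
  rintro ⟨i, b⟩ ⟨j, c⟩ h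
  have hij : i = j := by
    by_contra hij
    have h1 := congrFun h i
    rw [sd, sd, Pi.single_eq_same, Pi.single_eq_of_ne hij] at h1
    split_ifs at h1 <;> omega
  subst hij
  have h1 := congrFun h i
  rw [sd, sd, Pi.single_eq_same, Pi.single_eq_same] at h1
  cases b <;> cases c <;> simp_all

private lemma exists_step {d : ℕ} (v : Fin d → ℤ) (hv : ∑ k, v k ^ 2 = 1) : ∃ e, v = sd d e := by
  have h1 : ∃ k, v k ≠ 0 := by
    by_contra h
    push Not at h
    rw [Finset.sum_eq_zero (fun k _ => by rw [h k]; norm_num)] at hv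
    exact absurd hv (by norm_num)
  obtain ⟨k, hk⟩ := h1
  have h2 : 1 ≤ v k ^ 2 := by
    have : 0 < v k ^ 2 := by positivity
    omega
  rw [← Finset.sum_erase_add _ _ (Finset.mem_univ k)] at hv
  have h3 : 0 ≤ ∑ l ∈ Finset.univ.erase k, v l ^ 2 := Finset.sum_nonneg fun l _ => sq_nonneg _
  have h4 : ∑ l ∈ Finset.univ.erase k, v l ^ 2 = 0 := by omega
  have h5 : v k ^ 2 = 1 := by omega
  have h6 : ∀ l, l ≠ k → v l = 0 := fun l hl => by
    have := (Finset.sum_eq_zero_iff_of_nonneg fun l _ => sq_nonneg (v l)).1 h4 l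
      (Finset.mem_erase.2 ⟨hl, Finset.mem_univ _⟩)
    exact pow_eq_zero_iff (two_ne_zero) |>.1 this
  have h8 : v k * v k = 1 := by rw [← sq]; exact h5
  rcases mul_self_eq_one_iff.1 h8 with h7 | h7
  · refine ⟨(k, true), funext fun l => ?_⟩
    by_cases hl : l = k
    · rw [hl, h7, sd, Pi.single_eq_same]
      rfl
    · rw [h6 l hl, sd, Pi.single_eq_of_ne hl]
  · refine ⟨(k, false), funext fun l => ?_⟩
    by_cases hl : l = k
    · rw [hl, h7, sd, Pi.single_eq_same]
      rfl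
    · rw [h6 l hl, sd, Pi.single_eq_of_ne hl]

private lemma walk_inj (d n : ℕ) : Function.Injective (walk (d := d) (n := n)) := by
  intro s s' h
  funext i
  apply sd_inj d
  have h1 := walk_succ s i
  have h2 := walk_succ s' i
  rw [h] at h1
  exact add_left_cancel (h1.symm.trans h2)

private lemma walks_eq (d n : ℕ) : Walks d n = Set.range (walk (d := d) (n := n)) := by
  ext w
  constructor
  · rintro ⟨h0, h1⟩
    have h2 : ∀ i : Fin n, ∃ e, w i.succ - w i.castSucc = sd d e := fun i =>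
      exists_step _ (h1 i)
    choose s hs using h2
    refine ⟨s, funext fun i => ?_⟩
    induction i using Fin.induction with
    | zero =>
      rw [h0]
      unfold walk wpos
      refine Finset.sum_eq_zero fun j _ => ?_
      rw [if_neg (by simp)]
    | succ i ih => rw [walk_succ, ih, ← hs i]; abel
  · rintro ⟨s, rfl⟩
    refine ⟨?_, fun i => ?_⟩
    · unfold walk wpos
      refine Finset.sum_eq_zero fun j _ => ?_
      rw [if_neg (by simp)]
    · rw [walk_succ]
      simp only [Pi.add_apply, add_sub_cancel_left]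
      exact sd_sq d (s i)

private lemma E_eq (d n : ℕ) (f : (Fin (n + 1) → Fin d → ℤ) → ℝ) :
    E d n f = (∑ s : Fin n → Fin d × Bool, f (walk s)) / (Fintype.card (Fin d × Bool) : ℝ) ^ n := by
  unfold E
  rw [walks_eq, finsum_mem_range (walk_inj d n), finsum_eq_sum_of_fintype,
    ← Set.image_univ, Set.ncard_image_of_injective _ (walk_inj d n), Set.ncard_univ,
    Nat.card_eq_fintype_card, Fintype.card_fun, Fintype.card_fin]
  push_cast
  rfl

private lemma I_eq {d n : ℕ} [Nonempty (Fin d × Bool)] (s : Fin n → Fin d × Bool) :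
    I (walk s) = psum dl ((path (sd d) n s).2 :: (path (sd d) n s).1) := by
  rw [path_eq]
  have h1 := card_pairs (wpos (sd d) s) n
  rw [lst] at h1
  rw [← h1]
  unfold I
  congr 1
  rw [← Set.ncard_coe_finset]
  congr 1
  ext p
  simp [walk]

private lemma Z_eq (d : ℕ) [Nonempty (Fin d × Bool)] (β : ℝ) (n : ℕ) : Z d β n = ZZ (sd d) n β := by
  rw [Z, E_eq, ZZ, EE_eq]
  simp only [I_eq]

private lemma mu_eq' (d : ℕ) [Nonempty (Fin d × Bool)] (n : ℕ) : E d n I = mu (sd d) n := by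
  rw [E_eq, mu, EE_eq]
  simp only [I_eq]

private lemma ZStar_eq (d : ℕ) [Nonempty (Fin d × Bool)] (β : ℝ) (n : ℕ) :
    ZStar d β n = ZS (sd d) n β := by
  rw [ZStar, E_eq, ZS, EE_eq, mu_eq']
  simp only [I_eq]

private lemma growth_eq (d : ℕ) [Nonempty (Fin d × Bool)] : Growth d = SA (sd d) := by
  ext β
  unfold Growth SA
  simp only [Set.mem_ofPred_eq, Z_eq]
  constructor
  · intro h
    obtain ⟨c, h1, h2⟩ := EReal.lt_iff_exists_real_btwn.1 h
    refine ⟨c, by exact_mod_cast h1, ?_⟩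
    exact (frequently_lt_of_lt_limsup (by isBoundedDefault) h2).mono fun n hn => by exact_mod_cast hn
  · rintro ⟨c, h1, h2⟩
    have h3 : (1 : EReal) < (c : EReal) := by exact_mod_cast h1
    refine h3.trans_le (le_limsup_of_frequently_le (h2.mono fun n hn => ?_) (by isBoundedDefault))
    exact_mod_cast hn.le

private lemma bounded_eq (d : ℕ) [Nonempty (Fin d × Bool)] : Bounded d = SB (sd d) := by
  ext β
  unfold Bounded SB
  simp only [Set.mem_ofPred_eq, ZStar_eq]
  constructor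
  · rintro ⟨M, hM⟩
    exact ⟨M, fun n hn => hM ⟨n, hn, rfl⟩⟩
  · rintro ⟨M, hM⟩
    refine ⟨M, ?_⟩
    rintro z ⟨n, hn, rfl⟩
    exact hM n hn

/-- **The two critical values coincide, in every dimension `d ≥ 2`.**  There is a real number
`b ≤ 0` which is both the supremum `β_c` of the `β` with `limsup Z_n^(1/n) > 1` and the infimum
`β_c^*` of the `β` with `sup Z_n^* < ∞`.  Below `b` the partition functions grow exponentially and
the centred ones are unbounded; in `(b, 0]` the centred partition functions are bounded and the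
upper limit is at most `1`. -/
theorem result (d : ℕ) (hd : 2 ≤ d) :
    ∃ b : ℝ, b ≤ 0 ∧ IsLUB (Growth d) b ∧ IsGLB (Bounded d) b ∧
      (∀ β < b, β ∈ Growth d ∧ β ∉ Bounded d) ∧
      ∀ β, b < β → β ≤ 0 → β ∉ Growth d ∧ β ∈ Bounded d := by
  have : Nonempty (Fin d × Bool) := ⟨(⟨0, by omega⟩, true)⟩
  rw [growth_eq, bounded_eq]
  exact all hd

end Pool.Agent.Results.MP_a146e8_pr.ThresholdsCoincide
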